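import Pool.Agent.W443.J6.Stms

/-!
# J6-PHI: from the end of the chain to the differential equation
-/

set_option autoImplicit false
set_option maxHeartbeats 400000

namespace Pool.Agent.W975.J6

open Polynomial Pool.Agent.W443.J6

universe u

variable {k : Type u} [Field k]

/-- the bracket at a root -/
theorem brk (y : k) (e a : ℕ) (he : 1 ≤ e) (A B : k[X]) (E D : k) :
    C E * derivative ((X - C y) ^ e * A) * ((X - C y) ^ a * B) -
      C D * ((X - C y) ^ e * A) * derivative ((X - C y) ^ a * B) =
    (X - C y) ^ (e + a - 1) * (C E * (C (e : k) * A + (X - C y) * derivative A) * B -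
      C D * A * (C (a : k) * B + (X - C y) * derivative B)) := by
  obtain ⟨e', rfl⟩ : ∃ e', e = e' + 1 := ⟨e - 1, by omega⟩
  have h1 : derivative ((X - C y) ^ (e' + 1) * A) =
      (X - C y) ^ e' * (C ((e' + 1 : ℕ) : k) * A + (X - C y) * derivative A) := by
    rw [derivative_mul, derivative_X_sub_C_pow]
    simp only [Nat.add_sub_cancel, Nat.cast_add, Nat.cast_one, map_add, map_natCast, map_one]
    ring
  rw [h1]
  have e1 : e' + 1 + a - 1 = e' + a := by omega
  rw [e1]
  cases a with
  | zero =>
    simp only [pow_zero, one_mul, Nat.cast_zero, map_zero, zero_mul, zero_add, add_zero]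
    ring
  | succ a =>
    have h2 : derivative ((X - C y) ^ (a + 1) * B) =
        (X - C y) ^ a * (C ((a + 1 : ℕ) : k) * B + (X - C y) * derivative B) := by
      rw [derivative_mul, derivative_X_sub_C_pow]
      simp only [Nat.add_sub_cancel, Nat.cast_add, Nat.cast_one, map_add, map_natCast, map_one]
      ring
    rw [h2]
    ring

/-- the multiplicities -/
theorem mult [CharZero k] (α q h : k[X]) (D E' w : ℤ) (S T : ℕ) (c1 : k) (hD : 0 < D)
    (hw : 0 < w) (hα : α ≠ 0) (hS : 1 ≤ S) (hc1 : c1 ≠ 0) (hh : h ≠ 0)
    (hST : h ^ S = C c1 * α ^ T) (hW : (S : ℤ) * (D + E' - w) = T * D)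
    (hq : C (E' : k) * derivative α * q - C (D : k) * α * derivative q = h) (y : k) :
    rootMultiplicity y h ≤ rootMultiplicity y α + rootMultiplicity y q := by
  classical
  have hq0 : q ≠ 0 := by
    rintro rfl
    apply hh
    rw [← hq]
    simp
  have hm : S * rootMultiplicity y h = T * rootMultiplicity y α := by
    have h1 := congrArg (fun p => p.roots.count y) hST
    simp only [roots_C_mul _ hc1, roots_pow, Multiset.count_nsmul, count_roots] at h1
    exact h1
  obtain ⟨e, he⟩ : ∃ e, e = rootMultiplicity y α := ⟨_, rfl⟩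
  obtain ⟨a, ha⟩ : ∃ a, a = rootMultiplicity y q := ⟨_, rfl⟩
  obtain ⟨η, hη⟩ : ∃ η, η = rootMultiplicity y h := ⟨_, rfl⟩
  rw [← he, ← hη] at hm
  rw [← he, ← ha, ← hη]
  rcases Nat.eq_zero_or_pos e with he0 | he0
  · rw [he0, mul_zero] at hm
    have : η = 0 := by
      rcases Nat.mul_eq_zero.1 hm with h1 | h1
      · omega
      · exact h1
    omega
  · by_cases hcase : E' * (e : ℤ) = D * (a : ℤ)
    · have h1 : (S : ℤ) * (η : ℤ) = T * e := by exact_mod_cast hm
      have h2 : (S : ℤ) * (D * η) = S * (D * (e + a) - w * e) := by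
        linear_combination D * h1 - (e : ℤ) * hW + (S : ℤ) * hcase
      have hS0 : (S : ℤ) ≠ 0 := by
        have : 0 < S := hS
        exact_mod_cast this.ne'
      have h3 : D * (η : ℤ) = D * (e + a) - w * e := mul_left_cancel₀ hS0 h2
      have h4 : 0 < w * (e : ℤ) := by
        have : (0 : ℤ) < e := by exact_mod_cast he0
        positivity
      have h5 : D * (η : ℤ) < D * ((e + a : ℕ) : ℤ) := by
        push_cast
        linarith
      have h6 : (η : ℤ) < ((e + a : ℕ) : ℤ) := lt_of_mul_lt_mul_left h5 hD.le
      have : η < e + a := by exact_mod_cast h6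
      omega
    · obtain ⟨A, hA1, hA2⟩ := exists_eq_pow_rootMultiplicity_mul_and_not_dvd α hα y
      obtain ⟨B, hB1, hB2⟩ := exists_eq_pow_rootMultiplicity_mul_and_not_dvd q hq0 y
      rw [← he] at hA1
      rw [← ha] at hB1
      have h1 := brk y e a he0 A B (E' : k) (D : k)
      rw [← hA1, ← hB1, hq] at h1
      have h2 : η ≤ e + a - 1 := by
        rw [hη, rootMultiplicity_le_iff hh]
        intro hdvd
        rw [h1, pow_succ] at hdvd
        have hne : (X - C y) ^ (e + a - 1) ≠ 0 := pow_ne_zero _ (X_sub_C_ne_zero y)
        have h3 := (mul_dvd_mul_iff_left hne).1 hdvd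
        rw [dvd_iff_isRoot, IsRoot.def] at h3
        simp only [eval_sub, eval_mul, eval_add, eval_C, eval_X, sub_self, zero_mul,
          add_zero] at h3
        rw [dvd_iff_isRoot, IsRoot.def] at hA2 hB2
        have h4 : ((E' : k) * e - D * a) * (A.eval y * B.eval y) = 0 := by
          linear_combination h3
        rcases mul_eq_zero.1 h4 with h5 | h5
        · apply hcase
          have h6 : (E' : k) * e = D * a := by linear_combination h5
          exact_mod_cast h6
        · rcases mul_eq_zero.1 h5 with h6 | h6
          · exact hA2 h6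
          · exact hB2 h6
      omega

theorem main : S_PHI := by
  classical
  intro k _ _ _ α q h D E' w S T c1 hD hw hα hS hc1 hh hST hW hq
  have hq0 : q ≠ 0 := by
    rintro rfl
    apply hh
    rw [← hq]
    simp
  -- step 1
  have hdvd : h ∣ α * q := by
    rw [IsAlgClosed.dvd_iff_roots_le_roots hh (mul_ne_zero hα hq0), Multiset.le_iff_count]
    intro y
    rw [count_roots, count_roots, rootMultiplicity_mul (mul_ne_zero hα hq0)]
    exact mult α q h D E' w S T c1 hD hw hα hS hc1 hh hST hW hq y
  obtain ⟨ψ, hψ⟩ := hdvd
  -- step 2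
  have hd := congrArg derivative hST
  have hS0 : (S : k) ≠ 0 := by
    have : 0 < S := hS
    exact_mod_cast this.ne'
  have h1 : C (S : k) * derivative h * α = C (T : k) * derivative α * h := by
    have h2 : C (S : k) * derivative h * α * h ^ S = C (T : k) * derivative α * h * h ^ S := by
      obtain ⟨S', rfl⟩ : ∃ S', S = S' + 1 := ⟨S - 1, by omega⟩
      have e1 : derivative (h ^ (S' + 1)) = C (((S' + 1 : ℕ) : k)) * h ^ S' * derivative h := by
        rw [derivative_pow]
        simp
      have e2 : derivative (C c1 * α ^ T) * α = C c1 * (C (T : k) * α ^ T * derivative α) := by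
        rw [derivative_C_mul, derivative_pow]
        cases T with
        | zero => simp
        | succ T =>
          simp only [Nat.add_sub_cancel]
          ring
      rw [e1] at hd
      have e3 : C (((S' + 1 : ℕ) : k)) * h ^ S' * derivative h * α =
          C c1 * (C (T : k) * α ^ T * derivative α) := by
        rw [hd]
        exact e2
      calc C (((S' + 1 : ℕ) : k)) * derivative h * α * h ^ (S' + 1)
          = (C (((S' + 1 : ℕ) : k)) * h ^ S' * derivative h * α) * h := by ring
        _ = C c1 * (C (T : k) * α ^ T * derivative α) * h := by rw [e3]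
        _ = C (T : k) * derivative α * h * (C c1 * α ^ T) := by ring
        _ = C (T : k) * derivative α * h * h ^ (S' + 1) := by rw [hST]
    exact mul_right_cancel₀ (pow_ne_zero S hh) h2
  have hWk : (S : k) * (D + E' - w) = T * D := by exact_mod_cast hW
  have hWp : C (S : k) * (C (D : k) + C (E' : k) - C (w : k)) = C (T : k) * C (D : k) := by
    rw [← C_add, ← C_sub, ← C_mul, ← C_mul, hWk]
  have h3 : C (D : k) * derivative h * α =
      (C (D : k) + C (E' : k) - C (w : k)) * derivative α * h := by
    have h4 : C (S : k) * (C (D : k) * derivative h * α) =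
        C (S : k) * ((C (D : k) + C (E' : k) - C (w : k)) * derivative α * h) := by
      linear_combination C (D : k) * h1 - derivative α * h * hWp
    exact mul_left_cancel₀ (C_ne_zero.2 hS0) h4
  have h5 := congrArg derivative hψ
  rw [derivative_mul, derivative_mul] at h5
  refine ⟨-ψ, ?_⟩
  unfold OD
  rw [derivative_neg]
  refine mul_left_cancel₀ hh ?_
  linear_combination (C (D : k) * α) * h5 + ψ * h3 -
    (C (D : k) + C (E' : k)) * derivative α * hψ + α * hq

end Pool.Agent.W975.J6
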